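import Pool.Agent.Q181.TG.Stm3

set_option autoImplicit false

/-! Project TG of helper181, jobs t_cfi, t_cro, t_cco (helper98). -/

namespace Pool.Agent.Q98.TG

open Pool.Agent.Q181.TG Matrix Filter Topology

section ent

variable {G : Type} [Group G] {ι κ : Type}

/-- the change of bases -/
def chg (X : Type) [MulAction G X] (P : ι → Prop) (u : ι → G) :
    X × {i : ι // P i} ≃ {p : X × ι // P p.2} where
  toFun p := ⟨((u p.2.1)⁻¹ • p.1, p.2.1), p.2.2⟩
  invFun p := (u p.1.2 • p.1.1, ⟨p.1.2, p.2⟩)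
  left_inv p := by simp
  right_inv p := by simp

/-- the block after the change of bases -/
noncomputable def nb [DecidableEq ι] [DecidableEq κ] (A : Matrix ι κ (MonoidAlgebra ℤ G))
    (ρ : ι ⊕ κ → ι ⊕ κ) (b : ι ⊕ κ) (u : ι ⊕ κ → G) (X : Type) [MulAction G X] :
    Matrix (X × {i : ι // ρ (Sum.inl i) = b}) (X × {j : κ // ρ (Sum.inr j) = b}) ℤ :=
  (blk A ρ b X).submatrix (chg X (fun i => ρ (Sum.inl i) = b) (fun i => u (Sum.inl i)))
    (chg X (fun j => ρ (Sum.inr j) = b) (fun j => u (Sum.inr j)))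

theorem tc_nb [DecidableEq ι] [DecidableEq κ] (htc : S_tc) (A : Matrix ι κ (MonoidAlgebra ℤ G))
    (ρ : ι ⊕ κ → ι ⊕ κ) (b : ι ⊕ κ) (u : ι ⊕ κ → G) (X : Type) [MulAction G X] :
    tc (Cok (blk A ρ b X)) = tc (Cok (nb A ρ b u X)) :=
  (htc.2.2.2.2.2 _ _ _ _ _ _ _).symm

open Classical in
theorem nb_apply [DecidableEq ι] [DecidableEq κ] (A : Matrix ι κ (MonoidAlgebra ℤ G))
    (ρ : ι ⊕ κ → ι ⊕ κ) (b : ι ⊕ κ) (u : ι ⊕ κ → G) (X : Type) [MulAction G X] (x y : X)
    (i : {i : ι // ρ (Sum.inl i) = b}) (j : {j : κ // ρ (Sum.inr j) = b}) :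
    nb A ρ b u X (x, i) (y, j) = (A i.1 j.1).coeff.sum fun h t =>
      if (u (Sum.inl i.1) * h * (u (Sum.inr j.1))⁻¹) • y = x then t else 0 := by
  show ((A i.1 j.1).coeff.sum fun h t =>
    if h • (u (Sum.inr j.1))⁻¹ • y = (u (Sum.inl i.1))⁻¹ • x then t else 0) = _
  refine Finset.sum_congr rfl fun h _ => ?_
  have h1 : (h • (u (Sum.inr j.1))⁻¹ • y = (u (Sum.inl i.1))⁻¹ • x) ↔
      (u (Sum.inl i.1) * h * (u (Sum.inr j.1))⁻¹) • y = x := by
    rw [mul_smul, mul_smul, eq_inv_smul_iff]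
  simp only [h1]

omit [Group G] in
/-- a sum with at most one nonzero term -/
theorem sum_one (f : G →₀ ℤ) (h0 : G) (hf : ∀ h, f h ≠ 0 → h = h0) (P : G → Prop)
    [DecidablePred P] : (f.sum fun h t => if P h then t else 0) = if P h0 then f h0 else 0 := by
  classical
  have hs : f.support ⊆ {h0} := by
    intro h hh
    exact Finset.mem_singleton.2 (hf h (Finsupp.mem_support_iff.1 hh))
  rw [Finsupp.sum_of_support_subset f hs _ (fun i _ => by simp), Finset.sum_singleton]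

omit [Group G] in
/-- a sum with at most two nonzero terms -/
theorem sum_two (f : G →₀ ℤ) (h0 h1 : G) (h01 : h0 ≠ h1) (hf : ∀ h, f h ≠ 0 → h = h0 ∨ h = h1)
    (P : G → Prop) [DecidablePred P] :
    (f.sum fun h t => if P h then t else 0) =
      (if P h0 then f h0 else 0) + if P h1 then f h1 else 0 := by
  classical
  have hs : f.support ⊆ {h0, h1} := by
    intro h hh
    have := hf h (Finsupp.mem_support_iff.1 hh)
    simp only [Finset.mem_insert, Finset.mem_singleton]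
    exact this
  rw [Finsupp.sum_of_support_subset f hs _ (fun i _ => by simp), Finset.sum_pair h01]

end ent

theorem t_cfi : S_tc → S_fin → S_cfi := by
  classical
  intro htc hfin G _ ι κ _ _ _ _ A ρ u b hρ hFi
  set D : Matrix {i : ι // ρ (Sum.inl i) = b} {j : κ // ρ (Sum.inr j) = b} ℤ := fun i j =>
    (A i.1 j.1).coeff ((u (Sum.inl i.1))⁻¹ * u (Sum.inr j.1)) with hD
  refine ⟨tc (Cok D), htc.2.2.1 _ _ _, ?_⟩
  intro X _ _ _ hX
  have h1 : ∀ n, tc (Cok (blk A ρ b (X n))) = tc (Cok D) ^ Fintype.card (X n) := by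
    intro n
    rw [tc_nb htc A ρ b u]
    refine hfin _ _ _ D _ ?_
    intro x y i j
    rw [nb_apply, sum_one _ ((u (Sum.inl i.1))⁻¹ * u (Sum.inr j.1))]
    · simp only [mul_inv_cancel_left, mul_inv_cancel, one_smul]
      rfl
    · intro h hh
      rw [← hFi i.1 j.1 h i.2 hh, inv_mul_cancel_left]
  refine Tendsto.congr (fun n => ?_) tendsto_const_nhds
  rw [h1, Nat.cast_pow, Real.log_pow, Nat.card_eq_fintype_card]
  have : (Fintype.card (X n) : ℝ) ≠ 0 := by exact_mod_cast Fintype.card_ne_zero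
  field_simp

end Pool.Agent.Q98.TG
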