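import Pool.Agent.Q98.TG.Cfi

set_option autoImplicit false

/-! Project TG of helper181, jobs t_cro, t_cco (helper98). -/

namespace Pool.Agent.Q98.TG

open Pool.Agent.Q181.TG Matrix Filter Topology

theorem fg_cok {α β : Type} [Finite β] (M : Matrix α β ℤ) : AddGroup.FG (Cok M) := by
  have h1 : Module.Finite ℤ (Cok M) := inferInstance
  exact Module.Finite.iff_addGroup_fg.1 h1

/-- the fixed points of the powers of an element of a torsion-free group -/
theorem far_pow {G : Type} [Group G] (hG : ∀ g : G, ∀ k : ℕ, 0 < k → g ^ k = 1 → g = 1)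
    (X : ℕ → Type) [∀ n, MulAction G (X n)] (hX : Far G X) (t : G) (ht : t ≠ 1)
    (k : ℕ) (hk : 1 ≤ k) :
    Tendsto (fun n => (Nat.card {x : X n // ((MulAction.toPerm t : Equiv.Perm (X n)) ^ k) x = x} : ℝ)
      / Nat.card (X n)) atTop (𝓝 0) := by
  have h1 : t ^ k ≠ 1 := fun h => ht (hG t k (by omega) h)
  refine Tendsto.congr (fun n => ?_) (hX (t ^ k) h1)
  have h2 : ∀ x : X n, ((MulAction.toPerm t : Equiv.Perm (X n)) ^ k) x = t ^ k • x := by
    intro x
    have : (MulAction.toPerm t : Equiv.Perm (X n)) ^ k = MulAction.toPerm (t ^ k) :=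
      (map_pow (MulAction.toPermHom G (X n)) t k).symm
    rw [this]
    rfl
  simp only [h2]

theorem t_cro : S_tc → S_row → S_perm → S_cro := by
  classical
  intro htc hrow hperm G _ hG ι κ _ _ _ _ A ρ u s b v hρ hRo
  obtain ⟨hs, hv, hRo⟩ := hRo
  set v' : {i : ι // ρ (Sum.inl i) = b} := ⟨v, hv⟩ with hv'
  set D : Matrix {i : ι // ρ (Sum.inl i) = b} {j : κ // ρ (Sum.inr j) = b} ℤ := fun i j =>
    (A i.1 j.1).coeff ((u (Sum.inl i.1))⁻¹ * u (Sum.inr j.1)) with hD
  set a : {j : κ // ρ (Sum.inr j) = b} → ℤ := fun j =>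
    (A v j.1).coeff ((u (Sum.inl v))⁻¹ * u (Sum.inr j.1)) with ha
  set b' : {j : κ // ρ (Sum.inr j) = b} → ℤ := fun j =>
    (A v j.1).coeff ((u (Sum.inl v))⁻¹ * (s b)⁻¹ * u (Sum.inr j.1)) with hb'
  have : AddGroup.FG (Cok (D.submatrix (fun i : {i // i ≠ v'} => i.1) id)) := fg_cok _
  obtain ⟨K, hK1, hK⟩ := hperm (Cok (D.submatrix (fun i : {i // i ≠ v'} => i.1) id))
    (Submodule.Quotient.mk a) (Submodule.Quotient.mk b')
  refine ⟨K, hK1, ?_⟩
  intro X _ _ _ hX
  refine Tendsto.congr (fun n => ?_)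
    (hK X (fun n => MulAction.toPerm (s b)) (fun k hk => far_pow hG X hX (s b) hs k hk))
  rw [tc_nb htc A ρ b u]
  congr 3
  refine (hrow _ _ _ D v' a b' _ _ ?_).symm
  intro x y i j
  rw [nb_apply]
  by_cases hi : i = v'
  · subst hi
    rw [if_pos rfl, sum_two _ ((u (Sum.inl v))⁻¹ * u (Sum.inr j.1))
      ((u (Sum.inl v))⁻¹ * (s b)⁻¹ * u (Sum.inr j.1))]
    · have h1 : u (Sum.inl v) * ((u (Sum.inl v))⁻¹ * u (Sum.inr j.1)) * (u (Sum.inr j.1))⁻¹ = 1 := by
        group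
      have h2 : u (Sum.inl v) * ((u (Sum.inl v))⁻¹ * (s b)⁻¹ * u (Sum.inr j.1))
          * (u (Sum.inr j.1))⁻¹ = (s b)⁻¹ := by
        group
      show (if (u (Sum.inl v) * ((u (Sum.inl v))⁻¹ * u (Sum.inr j.1)) * (u (Sum.inr j.1))⁻¹) • y = x
        then _ else 0) + (if (u (Sum.inl v) * ((u (Sum.inl v))⁻¹ * (s b)⁻¹ * u (Sum.inr j.1))
          * (u (Sum.inr j.1))⁻¹) • y = x then _ else 0) = _
      rw [h1, h2, one_smul]
      have h3 : ((s b)⁻¹ • y = x) ↔ y = (MulAction.toPerm (s b) : Equiv.Perm (X n)) x := by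
        rw [inv_smul_eq_iff]
        rfl
      simp only [h3]
      rfl
    · intro h
      apply hs
      have : (1 : G) = (s b)⁻¹ := by
        have h4 := congrArg (fun z => u (Sum.inl v) * z * (u (Sum.inr j.1))⁻¹) h
        simpa [mul_assoc] using h4
      exact (inv_eq_one.1 this.symm)
    · intro h hh
      rcases (hRo v j.1 h hv hh).2 rfl with h5 | h5
      · left
        rw [← h5]
        group
      · right
        rw [← h5]
        group
  · rw [if_neg hi, sum_one _ ((u (Sum.inl i.1))⁻¹ * u (Sum.inr j.1))]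
    · simp only [mul_inv_cancel_left, mul_inv_cancel, one_smul]
      rfl
    · intro h hh
      have hi' : i.1 ≠ v := fun h => hi (Subtype.ext h)
      rw [← (hRo i.1 j.1 h i.2 hh).1 hi', inv_mul_cancel_left]

theorem t_cco : S_tc → S_col → S_perm → S_cco := by
  classical
  intro htc hcol hperm G _ hG ι κ _ _ _ _ A ρ u s b v hρ hCo
  obtain ⟨hs, hv, hCo⟩ := hCo
  set v' : {j : κ // ρ (Sum.inr j) = b} := ⟨v, hv⟩ with hv'
  set D : Matrix {i : ι // ρ (Sum.inl i) = b} {j : κ // ρ (Sum.inr j) = b} ℤ := fun i j =>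
    (A i.1 j.1).coeff ((u (Sum.inl i.1))⁻¹ * u (Sum.inr j.1)) with hD
  set a : {i : ι // ρ (Sum.inl i) = b} → ℤ := fun i =>
    (A i.1 v).coeff ((u (Sum.inl i.1))⁻¹ * u (Sum.inr v)) with ha
  set b' : {i : ι // ρ (Sum.inl i) = b} → ℤ := fun i =>
    (A i.1 v).coeff ((u (Sum.inl i.1))⁻¹ * s b * u (Sum.inr v)) with hb'
  set D' : Matrix {i : ι // ρ (Sum.inl i) = b} ({j // j ≠ v'} ⊕ Bool) ℤ :=
    fun i => Sum.elim (fun j => D i j.1) (fun t => if t then b' i else a i) with hD'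
  have : AddGroup.FG (Cok D') := fg_cok _
  obtain ⟨K, hK1, hK⟩ := hperm (Cok D')
    (Submodule.Quotient.mk (Pi.single (Sum.inr true) 1))
    (Submodule.Quotient.mk (-Pi.single (Sum.inr false) 1))
  refine ⟨K, hK1, ?_⟩
  intro X _ _ _ hX
  have hs' : (s b)⁻¹ ≠ 1 := fun h => hs (inv_eq_one.1 h)
  refine Tendsto.congr (fun n => ?_)
    (hK X (fun n => MulAction.toPerm (s b)⁻¹) (fun k hk => far_pow hG X hX (s b)⁻¹ hs' k hk))
  rw [tc_nb htc A ρ b u]
  congr 3
  refine (hcol _ _ _ D v' a b' _ _ ?_ D' rfl).symm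
  intro x y i j
  rw [nb_apply]
  by_cases hj : j = v'
  · subst hj
    rw [if_pos rfl, sum_two _ ((u (Sum.inl i.1))⁻¹ * u (Sum.inr v))
      ((u (Sum.inl i.1))⁻¹ * s b * u (Sum.inr v))]
    · have h1 : u (Sum.inl i.1) * ((u (Sum.inl i.1))⁻¹ * u (Sum.inr v)) * (u (Sum.inr v))⁻¹ = 1 := by
        group
      have h2 : u (Sum.inl i.1) * ((u (Sum.inl i.1))⁻¹ * s b * u (Sum.inr v))
          * (u (Sum.inr v))⁻¹ = s b := by
        group
      show (if (u (Sum.inl i.1) * ((u (Sum.inl i.1))⁻¹ * u (Sum.inr v)) * (u (Sum.inr v))⁻¹) • y = x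
        then _ else 0) + (if (u (Sum.inl i.1) * ((u (Sum.inl i.1))⁻¹ * s b * u (Sum.inr v))
          * (u (Sum.inr v))⁻¹) • y = x then _ else 0) = _
      rw [h1, h2, one_smul]
      have h3 : (s b • y = x) ↔ y = (MulAction.toPerm (s b)⁻¹ : Equiv.Perm (X n)) x := by
        show _ ↔ y = (s b)⁻¹ • x
        rw [eq_inv_smul_iff]
      simp only [h3]
      rfl
    · intro h
      apply hs
      have : (1 : G) = s b := by
        have h4 := congrArg (fun z => u (Sum.inl i.1) * z * (u (Sum.inr v))⁻¹) h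
        simpa [mul_assoc] using h4
      exact this.symm
    · intro h hh
      rcases (hCo i.1 v h i.2 hh).2 rfl with h5 | h5
      · left
        rw [← h5]
        group
      · right
        have h6 : (u (Sum.inl i.1))⁻¹ * s b * u (Sum.inr v) = (u (Sum.inl i.1))⁻¹ *
          (s b * u (Sum.inr v)) := by group
        rw [h6, ← h5]
        group
  · rw [if_neg hj, sum_one _ ((u (Sum.inl i.1))⁻¹ * u (Sum.inr j.1))]
    · simp only [mul_inv_cancel_left, mul_inv_cancel, one_smul]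
      rfl
    · intro h hh
      have hj' : j.1 ≠ v := fun h => hj (Subtype.ext h)
      rw [← (hCo i.1 j.1 h i.2 hh).1 hj', inv_mul_cancel_left]

end Pool.Agent.Q98.TG
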