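import Pool.Agent.Q181.TG.Stm3

set_option autoImplicit false

/-! Project TG of helper181, job t_cto (helper98). -/

namespace Pool.Agent.Q98.TG

open Pool.Agent.Q181.TG Matrix Filter Topology

section ent

variable {G : Type} [Group G]

open Classical in
theorem row_sum (f f' : G →₀ ℤ) (X : Type) [Fintype X] [MulAction G X] (x x' : X)
    (S : Finset G) (hS : ∀ h ∈ f.support, ∀ h' ∈ f'.support, h * h'⁻¹ ∈ S) :
    (∑ y : X, (f.sum fun h t => if h • y = x then t else 0) *
      (f'.sum fun h t => if h • y = x' then t else 0)) =
    ∑ g ∈ S, (if g • x' = x then f.sum fun h t => t * f' (g⁻¹ * h) else 0) := by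
  have h1 : ∀ h ∈ f.support, (∑ h' ∈ f'.support, (if (h * h'⁻¹) • x' = x then f' h' else 0))
      = ∑ g ∈ S, if g • x' = x then f' (g⁻¹ * h) else 0 := by
    intro h hh
    have h2 : (∑ g ∈ f'.support.image (fun h' => h * h'⁻¹),
        if g • x' = x then f' (g⁻¹ * h) else 0) =
        ∑ h' ∈ f'.support, (if (h * h'⁻¹) • x' = x then f' h' else 0) := by
      rw [Finset.sum_image]
      · refine Finset.sum_congr rfl fun h' _ => ?_
        have : (h * h'⁻¹)⁻¹ * h = h' := by group
        rw [this]
      · intro a _ c _ hac
        exact inv_injective (mul_left_cancel hac)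
    rw [← h2]
    refine Finset.sum_subset ?_ ?_
    · intro g hg
      obtain ⟨h', hh', rfl⟩ := Finset.mem_image.1 hg
      exact hS h hh h' hh'
    · intro g _ hg
      have h3 : f' (g⁻¹ * h) = 0 := by
        by_contra hne
        apply hg
        refine Finset.mem_image.2 ⟨g⁻¹ * h, Finsupp.mem_support_iff.2 hne, ?_⟩
        group
      rw [h3, ite_self]
  calc (∑ y : X, (f.sum fun h t => if h • y = x then t else 0) *
      (f'.sum fun h t => if h • y = x' then t else 0))
      = ∑ y : X, ∑ h ∈ f.support, ∑ h' ∈ f'.support,
          (if h • y = x then f h else 0) * (if h' • y = x' then f' h' else 0) := by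
        refine Finset.sum_congr rfl fun y _ => ?_
        exact Finset.sum_mul_sum _ _ _ _
    _ = ∑ h ∈ f.support, ∑ h' ∈ f'.support, ∑ y : X,
          (if h • y = x then f h else 0) * (if h' • y = x' then f' h' else 0) := by
        rw [Finset.sum_comm]
        refine Finset.sum_congr rfl fun h _ => ?_
        rw [Finset.sum_comm]
    _ = ∑ h ∈ f.support, ∑ h' ∈ f'.support,
          f h * (if (h * h'⁻¹) • x' = x then f' h' else 0) := by
        refine Finset.sum_congr rfl fun h _ => Finset.sum_congr rfl fun h' _ => ?_
        rw [Finset.sum_eq_single (h⁻¹ • x)]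
        · rw [smul_inv_smul, if_pos rfl]
          have : (h' • h⁻¹ • x = x') ↔ ((h * h'⁻¹) • x' = x) := by
            rw [mul_smul]
            constructor
            · intro e
              rw [← e, inv_smul_smul, smul_inv_smul]
            · intro e
              rw [← e, inv_smul_smul, smul_inv_smul]
          simp only [this]
        · intro y _ hy
          rw [if_neg, zero_mul]
          intro e
          exact hy (by rw [← e, inv_smul_smul])
        · intro e
          exact absurd (Finset.mem_univ _) e
    _ = ∑ h ∈ f.support, f h * ∑ g ∈ S, (if g • x' = x then f' (g⁻¹ * h) else 0) := by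
        refine Finset.sum_congr rfl fun h hh => ?_
        rw [← Finset.mul_sum, h1 h hh]
    _ = _ := by
        simp only [Finset.mul_sum]
        rw [Finset.sum_comm]
        refine Finset.sum_congr rfl fun g _ => ?_
        split_ifs with hg
        · rfl
        · simp

open Classical in
theorem col_sum (f f' : G →₀ ℤ) (X : Type) [Fintype X] [MulAction G X] (y y' : X)
    (S : Finset G) (hS : ∀ h ∈ f.support, ∀ h' ∈ f'.support, h⁻¹ * h' ∈ S) :
    (∑ x : X, (f.sum fun h t => if h • y = x then t else 0) *
      (f'.sum fun h t => if h • y' = x then t else 0)) =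
    ∑ g ∈ S, (if g • y' = y then f.sum fun h t => t * f' (h * g) else 0) := by
  have h1 : ∀ h ∈ f.support, (∑ h' ∈ f'.support, (if (h⁻¹ * h') • y' = y then f' h' else 0))
      = ∑ g ∈ S, if g • y' = y then f' (h * g) else 0 := by
    intro h hh
    have h2 : (∑ g ∈ f'.support.image (fun h' => h⁻¹ * h'),
        if g • y' = y then f' (h * g) else 0) =
        ∑ h' ∈ f'.support, (if (h⁻¹ * h') • y' = y then f' h' else 0) := by
      rw [Finset.sum_image]
      · refine Finset.sum_congr rfl fun h' _ => ?_
        rw [mul_inv_cancel_left]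
      · intro a _ c _ hac
        exact mul_left_cancel hac
    rw [← h2]
    refine Finset.sum_subset ?_ ?_
    · intro g hg
      obtain ⟨h', hh', rfl⟩ := Finset.mem_image.1 hg
      exact hS h hh h' hh'
    · intro g _ hg
      have h3 : f' (h * g) = 0 := by
        by_contra hne
        apply hg
        refine Finset.mem_image.2 ⟨h * g, Finsupp.mem_support_iff.2 hne, ?_⟩
        group
      rw [h3, ite_self]
  calc (∑ x : X, (f.sum fun h t => if h • y = x then t else 0) *
      (f'.sum fun h t => if h • y' = x then t else 0))
      = ∑ x : X, ∑ h ∈ f.support, ∑ h' ∈ f'.support,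
          (if h • y = x then f h else 0) * (if h' • y' = x then f' h' else 0) := by
        refine Finset.sum_congr rfl fun y _ => ?_
        exact Finset.sum_mul_sum _ _ _ _
    _ = ∑ h ∈ f.support, ∑ h' ∈ f'.support, ∑ x : X,
          (if h • y = x then f h else 0) * (if h' • y' = x then f' h' else 0) := by
        rw [Finset.sum_comm]
        refine Finset.sum_congr rfl fun h _ => ?_
        rw [Finset.sum_comm]
    _ = ∑ h ∈ f.support, ∑ h' ∈ f'.support,
          f h * (if (h⁻¹ * h') • y' = y then f' h' else 0) := by
        refine Finset.sum_congr rfl fun h _ => Finset.sum_congr rfl fun h' _ => ?_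
        rw [Finset.sum_eq_single (h • y)]
        · rw [if_pos rfl]
          have : (h' • y' = h • y) ↔ ((h⁻¹ * h') • y' = y) := by
            rw [mul_smul, inv_smul_eq_iff]
          simp only [this]
        · intro x _ hx
          rw [if_neg (fun e => hx e.symm), zero_mul]
        · intro e
          exact absurd (Finset.mem_univ _) e
    _ = ∑ h ∈ f.support, f h * ∑ g ∈ S, (if g • y' = y then f' (h * g) else 0) := by
        refine Finset.sum_congr rfl fun h hh => ?_
        rw [← Finset.mul_sum, h1 h hh]
    _ = _ := by
        simp only [Finset.mul_sum]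
        rw [Finset.sum_comm]
        refine Finset.sum_congr rfl fun g _ => ?_
        split_ifs with hg
        · rfl
        · simp

end ent

theorem sub_sum {α : Type} [Fintype α] (P : α → Prop) [DecidablePred P] [Fintype (Subtype P)]
    (F : α → ℤ) (hF : ∀ a, F a ≠ 0 → P a) : (∑ a : Subtype P, F a.1) = ∑ a, F a := by
  rw [← Finset.sum_filter_of_ne (s := Finset.univ) (p := P) fun a _ h => hF a h]
  exact (Finset.sum_subtype _ (fun x => by simp) F).symm

theorem t_cto : S_tc → S_torus → S_cto := by
  classical
  intro htc htor G _ ι κ _ _ _ _ A ρ b hρ hTo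
  obtain ⟨hr, hc⟩ := hTo
  set r : ℕ := Fintype.card {i : ι // ρ (Sum.inl i) = b} with hrdef
  refine ⟨2 ^ r, Nat.one_le_two_pow, ?_⟩
  intro X _ _ _ _
  have hreg : ∀ (n : ℕ) (p : X n × ι) (q : X n × κ), reg (X n) A p q ≠ 0 →
      ρ (Sum.inl p.2) = ρ (Sum.inr q.2) := by
    intro n p q hpq
    by_contra hne
    apply hpq
    refine Finset.sum_eq_zero fun h hh => ?_
    exact absurd (hρ p.2 q.2 h (Finsupp.mem_support_iff.1 hh)) hne
  have h1 : ∀ n, tc (Cok (blk A ρ b (X n))) = 2 ^ (Fintype.card (X n) * r) := by
    intro n
    have hcard : Fintype.card {p : X n × ι // ρ (Sum.inl p.2) = b} = Fintype.card (X n) * r := by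
      rw [hrdef, ← Fintype.card_prod]
      refine Fintype.card_congr
        { toFun := fun p => (p.1.1, ⟨p.1.2, p.2⟩)
          invFun := fun p => ⟨(p.1, p.2.1), p.2.2⟩
          left_inv := fun p => rfl
          right_inv := fun p => rfl }
    rw [← hcard]
    refine htor _ _ _ ?_ ?_
    · ext ⟨⟨x, i⟩, hi⟩ ⟨⟨x', i'⟩, hi'⟩
      rw [Matrix.mul_apply]
      have h2 : (∑ q : {q : X n × κ // ρ (Sum.inr q.2) = b},
          blk A ρ b (X n) ⟨(x, i), hi⟩ q * (blk A ρ b (X n)).transpose q ⟨(x', i'), hi'⟩)
          = ∑ q : X n × κ, reg (X n) A (x, i) q * reg (X n) A (x', i') q := by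
        refine sub_sum _ (fun q => reg (X n) A (x, i) q * reg (X n) A (x', i') q) ?_
        intro q hq
        rw [← hreg n (x, i) q (left_ne_zero_of_mul hq)]
        exact hi
      rw [h2, Fintype.sum_prod_type_right]
      set S : Finset G := insert 1 (Finset.univ.biUnion fun j => ((A i j).coeff.support ×ˢ
        (A i' j).coeff.support).image fun z => z.1 * z.2⁻¹) with hS
      have h3 : ∀ j : κ, (∑ y : X n, reg (X n) A (x, i) (y, j) * reg (X n) A (x', i') (y, j))
          = ∑ g ∈ S, (if g • x' = x then (A i j).coeff.sum fun h t => t *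
            (A i' j).coeff (g⁻¹ * h) else 0) := by
        intro j
        refine row_sum (A i j).coeff (A i' j).coeff (X n) x x' S ?_
        intro h hh h' hh'
        refine Finset.mem_insert_of_mem (Finset.mem_biUnion.2 ⟨j, Finset.mem_univ _, ?_⟩)
        exact Finset.mem_image.2 ⟨(h, h'), Finset.mem_product.2 ⟨hh, hh'⟩, rfl⟩
      rw [Finset.sum_congr rfl fun j _ => h3 j, Finset.sum_comm]
      have h4 : ∀ g ∈ S, (∑ j, (if g • x' = x then (A i j).coeff.sum fun h t => t *
            (A i' j).coeff (g⁻¹ * h) else 0)) =
          if g = 1 then (if i = i' ∧ x = x' then 4 else 0) else 0 := by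
        intro g _
        by_cases hg : g • x' = x
        · simp only [if_pos hg]
          rw [hr i i' g hi]
          by_cases hg1 : g = 1
          · subst hg1
            rw [one_smul] at hg
            simp [hg]
          · simp [hg1]
        · simp only [if_neg hg]
          rw [Finset.sum_const_zero]
          by_cases hg1 : g = 1
          · subst hg1
            rw [one_smul] at hg
            have : ¬ x = x' := fun e => hg e.symm
            simp [this]
          · simp [hg1]
      rw [Finset.sum_congr rfl h4, Finset.sum_ite_eq' S (1 : G),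
        if_pos (Finset.mem_insert_self _ _), ← Matrix.diagonal_ofNat, Matrix.diagonal_apply]
      by_cases h5 : i = i' ∧ x = x'
      · obtain ⟨rfl, rfl⟩ := h5
        simp
      · rw [if_neg h5, if_neg]
        intro e
        apply h5
        have e1 := congrArg Subtype.val e
        simp only [Prod.mk.injEq] at e1
        exact ⟨e1.2, e1.1⟩
    · ext ⟨⟨y, j⟩, hj⟩ ⟨⟨y', j'⟩, hj'⟩
      rw [Matrix.mul_apply]
      have h2 : (∑ p : {p : X n × ι // ρ (Sum.inl p.2) = b},
          (blk A ρ b (X n)).transpose ⟨(y, j), hj⟩ p * blk A ρ b (X n) p ⟨(y', j'), hj'⟩)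
          = ∑ p : X n × ι, reg (X n) A p (y, j) * reg (X n) A p (y', j') := by
        refine sub_sum _ (fun p => reg (X n) A p (y, j) * reg (X n) A p (y', j')) ?_
        intro p hp
        rw [hreg n p (y, j) (left_ne_zero_of_mul hp)]
        exact hj
      rw [h2, Fintype.sum_prod_type_right]
      set S : Finset G := insert 1 (Finset.univ.biUnion fun i => ((A i j).coeff.support ×ˢ
        (A i j').coeff.support).image fun z => z.1⁻¹ * z.2) with hS
      have h3 : ∀ i : ι, (∑ x : X n, reg (X n) A (x, i) (y, j) * reg (X n) A (x, i) (y', j'))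
          = ∑ g ∈ S, (if g • y' = y then (A i j).coeff.sum fun h t => t *
            (A i j').coeff (h * g) else 0) := by
        intro i
        refine col_sum (A i j).coeff (A i j').coeff (X n) y y' S ?_
        intro h hh h' hh'
        refine Finset.mem_insert_of_mem (Finset.mem_biUnion.2 ⟨i, Finset.mem_univ _, ?_⟩)
        exact Finset.mem_image.2 ⟨(h, h'), Finset.mem_product.2 ⟨hh, hh'⟩, rfl⟩
      rw [Finset.sum_congr rfl fun i _ => h3 i, Finset.sum_comm]
      have h4 : ∀ g ∈ S, (∑ i, (if g • y' = y then (A i j).coeff.sum fun h t => t *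
            (A i j').coeff (h * g) else 0)) =
          if g = 1 then (if j = j' ∧ y = y' then 4 else 0) else 0 := by
        intro g _
        by_cases hg : g • y' = y
        · simp only [if_pos hg]
          rw [hc j j' g hj]
          by_cases hg1 : g = 1
          · subst hg1
            rw [one_smul] at hg
            simp [hg]
          · simp [hg1]
        · simp only [if_neg hg]
          rw [Finset.sum_const_zero]
          by_cases hg1 : g = 1
          · subst hg1
            rw [one_smul] at hg
            have : ¬ y = y' := fun e => hg e.symm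
            simp [this]
          · simp [hg1]
      rw [Finset.sum_congr rfl h4, Finset.sum_ite_eq' S (1 : G),
        if_pos (Finset.mem_insert_self _ _), ← Matrix.diagonal_ofNat, Matrix.diagonal_apply]
      by_cases h5 : j = j' ∧ y = y'
      · obtain ⟨rfl, rfl⟩ := h5
        simp
      · rw [if_neg h5, if_neg]
        intro e
        apply h5
        have e1 := congrArg Subtype.val e
        simp only [Prod.mk.injEq] at e1
        exact ⟨e1.2, e1.1⟩
  refine Tendsto.congr (fun n => ?_) tendsto_const_nhds
  have : (Fintype.card (X n) : ℝ) ≠ 0 := by exact_mod_cast Fintype.card_ne_zero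
  rw [h1, Nat.card_eq_fintype_card]
  push_cast
  rw [Real.log_pow, Real.log_pow]
  push_cast
  field_simp

end Pool.Agent.Q98.TG
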