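import Pool.Agent.Q181.TG.Stm3

set_option autoImplicit false

/-! Project TG of helper181, job t_main (helper98). -/

namespace Pool.Agent.Q98.TG

open Pool.Agent.Q181.TG Matrix Filter Topology

theorem t_main : S_tc → S_blk → S_cfi → S_cto → S_cro → S_cco → S_main := by
  classical
  intro htc hblk hcfi hcto hcro hcco G _ hG ι κ _ _ _ _ A ρ u s hNF
  have h1 : ∀ b, ∃ K : ℕ, 1 ≤ K ∧ Grow A ρ b K := by
    intro b
    rcases hNF.cls b with h | h | ⟨v, h⟩ | ⟨v, h⟩
    · exact hcfi G ι κ A ρ u b hNF.same h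
    · exact hcto G ι κ A ρ b hNF.same h
    · exact hcro G hG ι κ A ρ u s b v hNF.same h
    · exact hcco G hG ι κ A ρ u s b v hNF.same h
  choose K hK1 hK using h1
  refine ⟨∏ b, K b, Nat.one_le_iff_ne_zero.2 (Finset.prod_ne_zero_iff.2 fun b _ =>
    Nat.one_le_iff_ne_zero.1 (hK1 b)), ?_⟩
  intro X _ _ _ hX
  have h2 : ∀ n, tc (Cok (reg (X n) A)) = ∏ b, tc (Cok (blk A ρ b (X n))) := by
    intro n
    refine hblk _ _ _ (reg (X n) A) (fun p => ρ (Sum.inl p.2)) (fun q => ρ (Sum.inr q.2)) ?_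
    intro p q hpq
    by_contra hne
    apply hpq
    refine Finset.sum_eq_zero fun h hh => ?_
    exact absurd (hNF.same p.2 q.2 h (Finsupp.mem_support_iff.1 hh)) hne
  have h3 : ∀ n, Real.log (tc (Cok (reg (X n) A))) / Nat.card (X n)
      = ∑ b, Real.log (tc (Cok (blk A ρ b (X n)))) / Nat.card (X n) := by
    intro n
    rw [h2, Nat.cast_prod, Real.log_prod, Finset.sum_div]
    intro b _
    have := htc.2.2.1 _ _ (blk A ρ b (X n))
    exact_mod_cast (Nat.one_le_iff_ne_zero.1 this)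
  have h4 : Real.log ((∏ b, K b : ℕ) : ℝ) = ∑ b, Real.log (K b) := by
    rw [Nat.cast_prod, Real.log_prod]
    intro b _
    exact_mod_cast (Nat.one_le_iff_ne_zero.1 (hK1 b))
  rw [h4]
  simp only [h3]
  exact tendsto_finsetSum _ fun b _ => hK b X hX

end Pool.Agent.Q98.TG
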