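import Pool.Agent.Q181.TG.Stm3

set_option autoImplicit false

/-! Project TG of helper181, job TG-ROW (helper98). -/

namespace Pool.Agent.Q98.TG

open Pool.Agent.Q181.TG Matrix

theorem t_row : S_tc → S_row := by
  classical
  intro htc X I J _ dX dI _ D v a b σ M hM
  set D' : Matrix {i : I // i ≠ v} J ℤ := D.submatrix (fun i : {i // i ≠ v} => i.1) id with hD'
  set R : Submodule ℤ (J → ℤ) := Submodule.span ℤ (Set.range D') with hR
  set ξ : Cok D' := Submodule.Quotient.mk a with hξ
  set η : Cok D' := Submodule.Quotient.mk b with hη
  -- the projection onto the functions with values in the cokernel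
  let π : (X × J → ℤ) →+ (X → Cok D') :=
    { toFun := fun f x => Submodule.Quotient.mk (fun j => f (x, j))
      map_zero' := rfl
      map_add' := fun f g => rfl }
  let q : (X → Cok D') →+ Qt X σ ξ η := QuotientAddGroup.mk' (Qr X σ ξ η)
  let φ : (X × J → ℤ) →ₗ[ℤ] Qt X σ ξ η := (q.comp π).toIntLinearMap
  have hφs : Function.Surjective φ := by
    intro z
    obtain ⟨g, rfl⟩ := QuotientAddGroup.mk'_surjective (Qr X σ ξ η) z
    have h1 : ∀ x, ∃ c : J → ℤ, (Submodule.Quotient.mk c : Cok D') = g x := fun x =>
      Submodule.Quotient.mk_surjective _ (g x)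
    choose c hc using h1
    refine ⟨fun p => c p.1 p.2, ?_⟩
    show q (π _) = q g
    congr 1
    funext x
    exact hc x
  have hMv : ∀ x y j, M (x, v) (y, j) = (if y = x then a j else 0) + (if y = σ x then b j else 0) :=
    fun x y j => by rw [hM, if_pos rfl]
  have hMi : ∀ x y i j, i ≠ v → M (x, i) (y, j) = if y = x then D i j else 0 :=
    fun x y i j hi => by rw [hM, if_neg hi]
  have hπv : ∀ x, π (M (x, v)) = (Pi.single x ξ + Pi.single (σ x) η : X → Cok D') := by
    intro x
    funext y
    show (Submodule.Quotient.mk (fun j => M (x, v) (y, j)) : Cok D') = _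
    have h1 : (fun j => M (x, v) (y, j))
        = (if y = x then a else 0) + (if y = σ x then b else 0) := by
      funext j
      rw [hMv]
      simp only [Pi.add_apply]
      congr 1 <;> split_ifs <;> rfl
    rw [h1, Submodule.Quotient.mk_add, Pi.add_apply, Pi.single_apply, Pi.single_apply]
    congr 1
    · split_ifs <;> simp [hξ]
    · split_ifs <;> simp [hη]
  have hQ : Qr X σ ξ η = AddSubgroup.closure (Set.range fun x => π (M (x, v))) := by
    unfold Qr
    congr 2
    funext x
    rw [hπv x]
    funext y
    simp only [Pi.add_apply, Pi.single_apply]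
    congr 1
    · split_ifs <;> rfl
    · split_ifs <;> rfl
  have hπi : ∀ x i, i ≠ v → π (M (x, i)) = 0 := by
    intro x i hi
    funext y
    show (Submodule.Quotient.mk (fun j => M (x, i) (y, j)) : Cok D') = 0
    by_cases h1 : y = x
    · have h2 : (fun j => M (x, i) (y, j)) = D' ⟨i, hi⟩ := by
        funext j
        rw [hMi _ _ _ _ hi, if_pos h1]
        rfl
      rw [h2, Submodule.Quotient.mk_eq_zero]
      exact Submodule.subset_span ⟨_, rfl⟩
    · have h2 : (fun j => M (x, i) (y, j)) = 0 := by
        funext j
        rw [hMi _ _ _ _ hi, if_neg h1]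
        rfl
      rw [h2, Submodule.Quotient.mk_zero]
  have hker : LinearMap.ker φ = Submodule.span ℤ (Set.range M) := by
    apply le_antisymm
    · intro f hf
      have h1 : π f ∈ Qr X σ ξ η := (QuotientAddGroup.eq_zero_iff _).1 hf
      -- lift an element of the subgroup
      have h2 : ∀ g ∈ Qr X σ ξ η, ∃ m ∈ Submodule.span ℤ (Set.range M), π m = g := by
        intro g hg
        rw [hQ] at hg
        refine AddSubgroup.closure_induction (p := fun g _ => ∃ m ∈ Submodule.span ℤ
          (Set.range M), π m = g) ?_ ?_ ?_ ?_ hg
        · rintro _ ⟨x, rfl⟩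
          exact ⟨M (x, v), Submodule.subset_span ⟨_, rfl⟩, rfl⟩
        · exact ⟨0, zero_mem _, map_zero π⟩
        · rintro g g' _ _ ⟨m, hm, rfl⟩ ⟨m', hm', rfl⟩
          exact ⟨m + m', add_mem hm hm', map_add π m m'⟩
        · rintro g _ ⟨m, hm, rfl⟩
          exact ⟨-m, neg_mem hm, map_neg π m⟩
      obtain ⟨m, hm, hmf⟩ := h2 _ h1
      have h3 : π (f - m) = 0 := by rw [map_sub, hmf, sub_self]
      have h4 : f - m ∈ Submodule.span ℤ (Set.range M) := by
        have : Fintype X := Fintype.ofFinite X
        -- insertion at x
        let ins : X → (J → ℤ) →ₗ[ℤ] (X × J → ℤ) := fun x =>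
          { toFun := fun c p => if p.1 = x then c p.2 else 0
            map_add' := fun c c' => by
              funext p
              by_cases hp : p.1 = x <;> simp [hp]
            map_smul' := fun k c => by
              funext p
              by_cases hp : p.1 = x <;> simp [hp] }
        have h5 : f - m = ∑ x, ins x (fun j => (f - m) (x, j)) := by
          funext p
          rw [Finset.sum_apply, Finset.sum_eq_single p.1]
          · show (f - m) p = if p.1 = p.1 then (f - m) (p.1, p.2) else 0
            rw [if_pos rfl]
          · intro x _ hx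
            show (if p.1 = x then (f - m) (x, p.2) else 0) = 0
            rw [if_neg (Ne.symm hx)]
          · intro h
            exact absurd (Finset.mem_univ _) h
        rw [h5]
        refine Submodule.sum_mem _ fun x _ => ?_
        have h6 : (fun j => (f - m) (x, j)) ∈ R := by
          have := congrFun h3 x
          exact (Submodule.Quotient.mk_eq_zero _).1 this
        have h7 : R ≤ (Submodule.span ℤ (Set.range M)).comap (ins x) := by
          rw [hR, Submodule.span_le]
          rintro _ ⟨i, rfl⟩
          simp only [Submodule.comap_coe, Set.mem_preimage, SetLike.mem_coe]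
          have h8 : ins x (D' i) = M (x, i.1) := by
            funext p
            show (if p.1 = x then D' i p.2 else 0) = M (x, i.1) (p.1, p.2)
            rw [hMi _ _ _ _ i.2]
            rfl
          rw [h8]
          exact Submodule.subset_span ⟨_, rfl⟩
        exact h7 h6
      have h9 : f = (f - m) + m := by abel
      rw [h9]
      exact add_mem h4 hm
    · rw [Submodule.span_le]
      rintro _ ⟨⟨x, i⟩, rfl⟩
      show q (π (M (x, i))) = 0
      by_cases hi : i = v
      · subst hi
        refine (QuotientAddGroup.eq_zero_iff _).2 ?_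
        rw [hQ]
        exact AddSubgroup.subset_closure ⟨x, rfl⟩
      · rw [hπi _ _ hi, map_zero]
  refine htc.1 _ _ ⟨?_⟩
  exact ((Submodule.quotEquivOfEq _ _ hker.symm).trans
    (LinearMap.quotKerEquivOfSurjective φ hφs)).toAddEquiv

end Pool.Agent.Q98.TG
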